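import Pool.Agent.V11327.HWlaw

/-!
# Perimeter variance of a degenerate drifting walk can grow like `√n`

Take `Z = (1, ξ)` with `ξ = ±4^k` with probability `(31/64) 32^{-k}` each (`k ≥ 0`), so that
`E ξ² = 31/16 < ∞` and `P(|ξ| ≥ x)` is of order `x^{-5/2}`. With probability of order
`n · n^{-5/2}` one of the first `n` increments has `|ξ_i| ≥ C n`, and then
`L_n ≥ 2|ξ_i|` exceeds twice the mean `E L_n ≤ C' n`. This event alone contributes
`c n² · n^{-3/2} = c √n` to the variance.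
-/

set_option autoImplicit false

open MeasureTheory ProbabilityTheory Filter V11327.Hull

namespace Pool.Agent.Results.MP_1c2560_pr.HeavyTails

/-- There is a law `ν` of `Z` with finite second moment, drift `μ ≠ 0`, `σ_∥² = 0` and `σ_⊥² > 0`
such that `Var L_n ≥ c √n`, hence `Var L_n / log n → +∞`, for the walk with increments of law `ν`. -/
theorem result : ∃ ν : Measure ℂ, IsProbabilityMeasure ν ∧
    Integrable (fun z => ‖z‖ ^ 2) ν ∧ (∫ z, z ∂ν) ≠ 0 ∧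
    (∫ z, (dot (z - ∫ z, z ∂ν) ((∫ z, z ∂ν) / ‖∫ z, z ∂ν‖)) ^ 2 ∂ν) = 0 ∧
    (∀ u : ℂ, ‖u‖ = 1 → dot u (∫ z, z ∂ν) = 0 →
      0 < ∫ z, (dot (z - ∫ z, z ∂ν) u) ^ 2 ∂ν) ∧
    (∃ (Ω : Type) (_ : MeasurableSpace Ω) (P : Measure Ω) (_ : IsProbabilityMeasure P)
      (Z : ℕ → Ω → ℂ), IsSample P ν Z) ∧
    ∀ (Ω : Type) (_ : MeasurableSpace Ω) (P : Measure Ω) (_ : IsProbabilityMeasure P)
      (Z : ℕ → Ω → ℂ), IsSample P ν Z →
      (∃ c : ℝ, 0 < c ∧ ∀ n : ℕ, 1 ≤ n → c * Real.sqrt n ≤ variance (L Z n) P) ∧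
      Tendsto (fun n : ℕ => variance (L Z n) P / Real.log n) atTop atTop :=
  main

end Pool.Agent.Results.MP_1c2560_pr.HeavyTails
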